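import Pool.Agent.Lib.MP_342291_lc.E.Comp
import Pool.Agent.Lib.MP_342291_lc.E.Top2
import Pool.Agent.Lib.MP_342291_lc.E.Cls
import Pool.Agent.Lib.MP_342291_lc.E.Edg
import Pool.Agent.Lib.MP_342291_lc.E.Fin
import Pool.Agent.Lib.MP_342291_lc.E.Good
import Pool.Agent.Lib.MP_342291_lc.E.N

namespace Pool.Agent.Results.MP_342291_lc.ExistentialDecidable

open Pool.Agent.Lib.MP_342291_lc

/-- For every finite signature with a constant and every finite rewrite system over it, an
algorithm decides, given (the Goedel number of) a quantifier-free formula, whether it is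
satisfiable in the structure of ground terms with the one-step rewrite relation. -/
theorem result :
    ∀ (F : Type) (_ : Finite F) (ar : F → ℕ) (R : Set (Tm F ar ℕ × Tm F ar ℕ)),
      (∃ c : F, ar c = 0) → R.Finite → (∀ p ∈ R, IsRule p.1 p.2) →
      ∃ D : ℕ → Bool, Computable D ∧ ∀ φ : QF,
        (D φ.code = true ↔ ∃ v : ℕ → Tm F ar Empty, φ.Holds (Step R) v) := by
  intro F _ ar R _ hfin hrule
  exact E.Cp.comp F ar R hfin hrule
    (E.smStmt43 E.edgStmt E.finStmt (E.goodStmt E.nStmt) E.clsStmt F ar R hfin hrule)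

end Pool.Agent.Results.MP_342291_lc.ExistentialDecidable
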