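import Pool.Agent.Lib.MP_342291_lc.Sent

namespace Pool.Agent.Results.MP_342291_lc.PositiveUndecidable

open Pool.Agent.Lib.MP_342291_lc

/-- There are a finite signature with a constant and a finite rewrite system over it such that no
algorithm decides, given (the Goedel number of) a positive sentence, whether it holds in the
structure of ground terms with the one-step rewrite relation. -/
theorem result :
    ∃ (F : Type) (_ : Finite F) (ar : F → ℕ) (R : Set (Tm F ar ℕ × Tm F ar ℕ)),
      (∃ c : F, ar c = 0) ∧ R.Finite ∧ (∀ p ∈ R, IsRule p.1 p.2) ∧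
      ¬ ∃ D : ℕ → Bool, Computable D ∧ ∀ φ : PosFormula, φ.IsSentence →
        (D φ.code = true ↔ ∀ v : ℕ → Tm F ar Empty, φ.Holds (Step R) v) := by
  have hf : Partrec fun n : ℕ => (Denumerable.ofNat Nat.Partrec.Code n).eval 0 :=
    Nat.Partrec.Code.eval_part.comp (Computable.ofNat _) (Computable.const 0)
  obtain ⟨Y, hY⟩ := exists_sys (Partrec.nat_iff.1 hf)
  have := Y.fin
  refine ⟨Sy Y.S (Y.A + 1), inferInstance, Sy.ar, Y.rules, ⟨Sy.zero, rfl⟩, Sys.rules_finite,
    fun p hp => Sys.rules_isRule hp, ?_⟩
  rintro ⟨D, hD, h⟩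
  refine ComputablePred.halting_problem 0 (ComputablePred.computable_iff.2
    ⟨fun c => !D (sent (Encodable.encode c)).code, ?_, ?_⟩)
  · exact Primrec.not.to_comp.comp
      (hD.comp (primrec_sent.to_comp.comp Computable.encode))
  · funext c
    have h1 := h _ (sent_isSentence (Encodable.encode c))
    simp only [Sys.holds_sent, Sys.psi_iff, hY, Denumerable.ofNat_encode] at h1
    have h2 : D (sent (Encodable.encode c)).code = true ↔ ¬ (c.eval 0).Dom :=
      h1.trans ⟨fun h => h fun _ => Sys.z, fun h _ => h⟩
    apply propext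
    by_cases hc : (c.eval 0).Dom <;> simp [hc] at h2 ⊢ <;> simp [h2]

end Pool.Agent.Results.MP_342291_lc.PositiveUndecidable
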